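import Mathlib

set_option autoImplicit false

namespace Pool.Agent.Lib.MP_4bab84_co

/-- A layout: at most one vertex at (0,1), at most one at (0,-1), the others on the positive
x-axis, where edges only join vertices consecutive on the axis. -/
structure Layout {V : Type} (G : SimpleGraph V) (x y : V → ℝ) : Prop where
  pos : ∀ v, (y v = 0 ∧ 0 < x v) ∨ (y v = 1 ∧ x v = 0) ∨ (y v = -1 ∧ x v = 0)
  inj : ∀ u v, x u = x v → y u = y v → u = v
  lin : ∀ u v w, G.Adj u v → y u = 0 → y v = 0 → y w = 0 → x u < x w → x w < x v → False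

section
variable {V : Type} {G : SimpleGraph V} {x y : V → ℝ}

lemma Layout.side_lt (h : Layout G x y) (S : Set V) (hS : (G.induce S).Connected)
    (h0 : ∀ v ∈ S, y v = 0) (w : V) (hw : y w = 0) (hwS : w ∉ S)
    (a : V) (ha : a ∈ S) (haw : x a < x w) (u : V) (hu : u ∈ S) : x u < x w := by
  have hr := (hS.preconnected ⟨a, ha⟩ ⟨u, hu⟩)
  rw [SimpleGraph.reachable_iff_reflTransGen] at hr
  have key : ∀ b : S, Relation.ReflTransGen (G.induce S).Adj ⟨a, ha⟩ b → x b.1 < x w := by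
    intro b hb
    induction hb with
    | refl => exact haw
    | @tail c d _ hcd ih =>
      have hadj : G.Adj c.1 d.1 := by simpa using hcd
      rcases lt_trichotomy (x d.1) (x w) with h1 | h1 | h1
      · exact h1
      · exfalso
        have : d.1 = w := h.inj _ _ h1 (by rw [h0 _ d.2, hw])
        exact hwS (this ▸ d.2)
      · exact (h.lin _ _ w hadj (h0 _ c.2) (h0 _ d.2) hw ih h1).elim
  exact key ⟨u, hu⟩ hr

lemma Layout.side_gt (h : Layout G x y) (S : Set V) (hS : (G.induce S).Connected)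
    (h0 : ∀ v ∈ S, y v = 0) (w : V) (hw : y w = 0) (hwS : w ∉ S)
    (a : V) (ha : a ∈ S) (haw : x w < x a) (u : V) (hu : u ∈ S) : x w < x u := by
  rcases lt_trichotomy (x u) (x w) with h1 | h1 | h1
  · have := h.side_lt S hS h0 w hw hwS u hu h1 a ha
    linarith
  · exfalso
    have : u = w := h.inj _ _ h1 (by rw [h0 _ hu, hw])
    exact hwS (this ▸ hu)
  · exact h1

lemma Layout.minor (h : Layout G x y) {W : Type} (H : SimpleGraph W) (B : W → Set V)
    (hc : ∀ i, (G.induce (B i)).Connected) (hd : ∀ i j, i ≠ j → Disjoint (B i) (B j))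
    (ha : ∀ i j, i ≠ j → (H.Adj i j ↔ ∃ u ∈ B i, ∃ v ∈ B j, G.Adj u v)) :
    ∃ r : W → V, (∀ i, r i ∈ B i) ∧ Layout H (x ∘ r) (y ∘ r) := by
  have hex : ∀ i, ∃ v ∈ B i, (y v = 0 → ∀ u ∈ B i, y u = 0) := by
    intro i
    by_cases h0 : ∀ u ∈ B i, y u = 0
    · obtain ⟨v⟩ := (hc i).nonempty
      exact ⟨v.1, v.2, fun _ => h0⟩
    · push Not at h0
      obtain ⟨v, hv, hv0⟩ := h0
      exact ⟨v, hv, fun h' => (hv0 h').elim⟩
  choose r hr hr0 using hex
  have rinj : ∀ i j, r i = r j → i = j := by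
    intro i j hij
    by_contra hne
    exact Set.disjoint_left.1 (hd i j hne) (hr i) (hij ▸ hr j)
  refine ⟨r, hr, ⟨fun v => h.pos (r v), fun u v h1 h2 => rinj _ _ (h.inj _ _ h1 h2), ?_⟩⟩
  intro i j k hij hi hj hk h1 h2
  simp only [Function.comp] at hi hj hk h1 h2
  obtain ⟨u, hu, v, hv, huv⟩ := (ha i j hij.ne).1 hij
  have hki : k ≠ i := by rintro rfl; exact lt_irrefl _ h1
  have hkj : k ≠ j := by rintro rfl; exact lt_irrefl _ h2
  have h3 := h.side_lt (B i) (hc i) (hr0 i hi) (r k) hk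
    (Set.disjoint_left.1 (hd k i hki) (hr k)) (r i) (hr i) h1 u hu
  have h4 := h.side_gt (B j) (hc j) (hr0 j hj) (r k) hk
    (Set.disjoint_left.1 (hd k j hkj) (hr k)) (r j) (hr j) h2 v hv
  exact h.lin u v (r k) huv (hr0 i hi u hu) (hr0 j hj v hv) hk h3 h4

lemma Layout.deg (h : Layout G x y) (v : V) (hv : y v = 0) (e : Fin 5 → V)
    (he : Function.Injective e) (hadj : ∀ i, G.Adj v (e i)) : False := by
  classical
  let c : V → Fin 4 := fun u =>
    if y u = 1 then 0 else if y u = -1 then 1 else if x u < x v then 2 else 3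
  obtain ⟨i, j, hij, hc⟩ := Fintype.exists_ne_map_eq_of_card_lt (fun i => c (e i)) (by simp)
  have hne : e i ≠ e j := fun h' => hij (he h')
  have hxi : y (e i) = 0 → x (e i) ≠ x v := fun h0 h1 =>
    (hadj i).ne' (h.inj _ _ h1 (by rw [h0, hv]))
  have hxj : y (e j) = 0 → x (e j) ≠ x v := fun h0 h1 =>
    (hadj j).ne' (h.inj _ _ h1 (by rw [h0, hv]))
  have hxx : y (e i) = y (e j) → x (e i) ≠ x (e j) := fun h0 h1 => hne (h.inj _ _ h1 h0)
  simp only [c] at hc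
  rcases h.pos (e i) with ⟨a1, a2⟩ | ⟨a1, a2⟩ | ⟨a1, a2⟩ <;>
  rcases h.pos (e j) with ⟨b1, b2⟩ | ⟨b1, b2⟩ | ⟨b1, b2⟩
  · have n1 : (0 : ℝ) ≠ 1 := by norm_num
    have n2 : (0 : ℝ) ≠ -1 := by norm_num
    simp only [a1, b1, n1, n2, if_false] at hc
    have h5 := hxx (by rw [a1, b1])
    have h6 := hxi a1
    have h7 := hxj b1
    by_cases p : x (e i) < x v <;> by_cases q : x (e j) < x v
    · rcases lt_or_gt_of_ne h5 with r | r
      · exact h.lin _ _ _ (hadj i).symm a1 hv b1 r q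
      · exact h.lin _ _ _ (hadj j).symm b1 hv a1 r p
    · simp [p, q] at hc
    · simp [p, q] at hc
    · have p' : x v < x (e i) := lt_of_le_of_ne (not_lt.1 p) h6.symm
      have q' : x v < x (e j) := lt_of_le_of_ne (not_lt.1 q) h7.symm
      rcases lt_or_gt_of_ne h5 with r | r
      · exact h.lin _ _ _ (hadj j) hv b1 a1 p' r
      · exact h.lin _ _ _ (hadj i) hv a1 b1 q' r
  all_goals first
    | exact hxx (a1.trans b1.symm) (a2.trans b2.symm)
    | (norm_num [a1, b1] at hc; done)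
    | (norm_num [a1, b1] at hc; split_ifs at hc <;> simp at hc)

lemma Layout.orient (h : Layout G x y) (i j : V) (hij : G.Adj i j) (s : ℝ) (hs : 0 < s)
    (hs1 : s < 1) :
    ∃ i' j' : V, ∃ s' : ℝ, 0 < s' ∧ s' < 1 ∧ G.Adj i' j' ∧ ((i' = i ∧ j' = j) ∨ (i' = j ∧ j' = i)) ∧
      (1 - s') * x i' + s' * x j' = (1 - s) * x i + s * x j ∧
      (1 - s') * y i' + s' * y j' = (1 - s) * y i + s * y j ∧
      ((y i' = 0 ∧ y j' = 0 ∧ 0 < x i' ∧ x i' < x j') ∨
       (y i' = 1 ∧ y j' = 0 ∧ x i' = 0 ∧ 0 < x j') ∨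
       (y i' = -1 ∧ y j' = 0 ∧ x i' = 0 ∧ 0 < x j') ∨
       (y i' = 1 ∧ y j' = -1 ∧ x i' = 0 ∧ x j' = 0)) := by
  have hxx : y i = y j → x i ≠ x j := fun h0 h1 => hij.ne (h.inj _ _ h1 h0)
  have A : ((y i = 0 ∧ y j = 0 ∧ 0 < x i ∧ x i < x j) ∨
       (y i = 1 ∧ y j = 0 ∧ x i = 0 ∧ 0 < x j) ∨
       (y i = -1 ∧ y j = 0 ∧ x i = 0 ∧ 0 < x j) ∨
       (y i = 1 ∧ y j = -1 ∧ x i = 0 ∧ x j = 0)) ∨
      ((y j = 0 ∧ y i = 0 ∧ 0 < x j ∧ x j < x i) ∨
       (y j = 1 ∧ y i = 0 ∧ x j = 0 ∧ 0 < x i) ∨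
       (y j = -1 ∧ y i = 0 ∧ x j = 0 ∧ 0 < x i) ∨
       (y j = 1 ∧ y i = -1 ∧ x j = 0 ∧ x i = 0)) := by
    rcases h.pos i with ⟨a1, a2⟩ | ⟨a1, a2⟩ | ⟨a1, a2⟩ <;>
    rcases h.pos j with ⟨b1, b2⟩ | ⟨b1, b2⟩ | ⟨b1, b2⟩
    · rcases lt_or_gt_of_ne (hxx (by rw [a1, b1])) with r | r
      · exact Or.inl (Or.inl ⟨a1, b1, a2, r⟩)
      · exact Or.inr (Or.inl ⟨b1, a1, b2, r⟩)
    · exact Or.inr (Or.inr (Or.inl ⟨b1, a1, b2, a2⟩))
    · exact Or.inr (Or.inr (Or.inr (Or.inl ⟨b1, a1, b2, a2⟩)))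
    · exact Or.inl (Or.inr (Or.inl ⟨a1, b1, a2, b2⟩))
    · exact (hxx (a1.trans b1.symm) (a2.trans b2.symm)).elim
    · exact Or.inl (Or.inr (Or.inr (Or.inr ⟨a1, b1, a2, b2⟩)))
    · exact Or.inl (Or.inr (Or.inr (Or.inl ⟨a1, b1, a2, b2⟩)))
    · exact Or.inr (Or.inr (Or.inr (Or.inr ⟨b1, a1, b2, a2⟩)))
    · exact (hxx (a1.trans b1.symm) (a2.trans b2.symm)).elim
  rcases A with A | A
  · exact ⟨i, j, s, hs, hs1, hij, Or.inl ⟨rfl, rfl⟩, rfl, rfl, A⟩
  · exact ⟨j, i, 1 - s, by linarith, by linarith, hij.symm, Or.inr ⟨rfl, rfl⟩, by ring, by ring, A⟩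

lemma Layout.avoid (h : Layout G x y) (i j : V) (hij : G.Adj i j) (s : ℝ) (hs : 0 < s)
    (hs1 : s < 1) (v : V) (hx : (1 - s) * x i + s * x j = x v)
    (hy : (1 - s) * y i + s * y j = y v) : False := by
  obtain ⟨a, b, t, ht, ht1, hab, -, e1, e2, hc⟩ := h.orient i j hij s hs hs1
  rw [hx] at e1
  rw [hy] at e2
  rcases hc with ⟨a1, b1, a2, b2⟩ | ⟨a1, b1, a2, b2⟩ | ⟨a1, b1, a2, b2⟩ | ⟨a1, b1, a2, b2⟩
  · have hv : y v = 0 := by rw [← e2, a1, b1]; ring
    refine h.lin a b v hab a1 b1 hv ?_ ?_ <;> nlinarith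
  all_goals
    rw [a1, b1] at e2
    rcases h.pos v with ⟨c1, c2⟩ | ⟨c1, c2⟩ | ⟨c1, c2⟩ <;> nlinarith

lemma Layout.cross (h : Layout G x y) (i j k l : V) (hij : G.Adj i j) (hkl : G.Adj k l)
    (s t : ℝ) (hs : 0 < s) (hs1 : s < 1) (ht : 0 < t) (ht1 : t < 1)
    (hx : (1 - s) * x i + s * x j = (1 - t) * x k + t * x l)
    (hy : (1 - s) * y i + s * y j = (1 - t) * y k + t * y l) :
    (i = k ∧ j = l) ∨ (i = l ∧ j = k) := by
  obtain ⟨a, b, p, hp, hp1, hab, o1, e1, e2, hc⟩ := h.orient i j hij s hs hs1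
  obtain ⟨c, d, q, hq, hq1, hcd, o2, e3, e4, hc'⟩ := h.orient k l hkl t ht ht1
  have ex : (1 - p) * x a + p * x b = (1 - q) * x c + q * x d := by linarith
  have ey : (1 - p) * y a + p * y b = (1 - q) * y c + q * y d := by linarith
  have key : a = c ∧ b = d := by
    rcases hc with ⟨a1, b1, a2, b2⟩ | ⟨a1, b1, a2, b2⟩ | ⟨a1, b1, a2, b2⟩ | ⟨a1, b1, a2, b2⟩ <;>
    rcases hc' with ⟨c1, d1, c2, d2⟩ | ⟨c1, d1, c2, d2⟩ | ⟨c1, d1, c2, d2⟩ | ⟨c1, d1, c2, d2⟩
    · have l1 : x a < x d := by nlinarith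
      have l2 : x c < x b := by nlinarith
      have m1 : x a = x c := by
        rcases lt_trichotomy (x a) (x c) with r | r | r
        · exact (h.lin a b c hab a1 b1 c1 r l2).elim
        · exact r
        · exact (h.lin c d a hcd c1 d1 a1 r l1).elim
      have m2 : x b = x d := by
        rcases lt_trichotomy (x b) (x d) with r | r | r
        · exact (h.lin c d b hcd c1 d1 b1 l2 r).elim
        · exact r
        · exact (h.lin a b d hab a1 b1 d1 l1 r).elim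
      exact ⟨h.inj _ _ m1 (by rw [a1, c1]), h.inj _ _ m2 (by rw [b1, d1])⟩
    all_goals
      rw [a1, b1, c1, d1] at ey
      have pa : ∀ {z : ℝ}, 0 < z → 0 < p * z := fun hz => mul_pos hp hz
      have pb : ∀ {z : ℝ}, 0 < z → 0 < (1 - p) * z := fun hz => mul_pos (sub_pos.2 hp1) hz
      have qa : ∀ {z : ℝ}, 0 < z → 0 < q * z := fun hz => mul_pos hq hz
      have qb : ∀ {z : ℝ}, 0 < z → 0 < (1 - q) * z := fun hz => mul_pos (sub_pos.2 hq1) hz
    · exfalso; linarith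
    · exfalso; linarith
    · exfalso
      rw [c2, d2] at ex
      have := pa (a2.trans b2)
      have := pb a2
      linarith
    · exfalso; linarith
    · refine ⟨h.inj _ _ (by rw [a2, c2]) (by rw [a1, c1]), h.inj _ _ ?_ (by rw [b1, d1])⟩
      have hpq : p = q := by linarith
      rw [a2, c2, hpq] at ex
      have : q * (x b - x d) = 0 := by linarith
      rcases mul_eq_zero.1 this with r | r <;> linarith
    · exfalso; linarith
    · exfalso
      rw [a2, c2, d2] at ex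
      have := pa b2
      linarith
    · exfalso; linarith
    · exfalso; linarith
    · refine ⟨h.inj _ _ (by rw [a2, c2]) (by rw [a1, c1]), h.inj _ _ ?_ (by rw [b1, d1])⟩
      have hpq : p = q := by linarith
      rw [a2, c2, hpq] at ex
      have : q * (x b - x d) = 0 := by linarith
      rcases mul_eq_zero.1 this with r | r <;> linarith
    · exfalso
      rw [a2, c2, d2] at ex
      have := pa b2
      linarith
    · exfalso
      rw [a2, b2] at ex
      have := qa (c2.trans d2)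
      have := qb c2
      linarith
    · exfalso
      rw [a2, b2, c2] at ex
      have := qa d2
      linarith
    · exfalso
      rw [a2, b2, c2] at ex
      have := qa d2
      linarith
    · exact ⟨h.inj _ _ (by rw [a2, c2]) (by rw [a1, c1]), h.inj _ _ (by rw [b2, d2]) (by rw [b1, d1])⟩
  obtain ⟨rfl, rfl⟩ := key
  rcases o1 with ⟨rfl, rfl⟩ | ⟨rfl, rfl⟩ <;> rcases o2 with ⟨o3, o4⟩ | ⟨o3, o4⟩ <;> tauto

end

lemma Layout.planar {n : ℕ} {G : SimpleGraph (Fin n)} {x y : Fin n → ℝ} (h : Layout G x y) :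
    ∃ f : Fin n → ℝ × ℝ, Function.Injective f ∧
      ∃ γ : (i j : Fin n) → Path (f i) (f j),
        (∀ i j, G.Adj i j → i < j → Function.Injective ⇑(γ i j)) ∧
        (∀ i j, G.Adj i j → i < j → ∀ t : unitInterval, (t : ℝ) ∈ Set.Ioo (0 : ℝ) 1 →
            ∀ v, γ i j t ≠ f v) ∧
        (∀ i j k l, G.Adj i j → i < j → G.Adj k l → k < l → (i ≠ k ∨ j ≠ l) →
          ∀ s t : unitInterval, (s : ℝ) ∈ Set.Ioo (0 : ℝ) 1 → (t : ℝ) ∈ Set.Ioo (0 : ℝ) 1 →
            γ i j s ≠ γ k l t) := by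
  have finj : Function.Injective (fun v => (x v, y v)) := by
    intro u v huv
    simp only [Prod.mk.injEq] at huv
    exact h.inj _ _ huv.1 huv.2
  have seg : ∀ i j (t : unitInterval), Path.segment (x i, y i) (x j, y j) t =
      ((1 - (t : ℝ)) * x i + t * x j, (1 - (t : ℝ)) * y i + t * y j) := by
    intro i j t
    rw [Path.segment_apply, AffineMap.lineMap_apply]
    ext <;> simp <;> ring
  refine ⟨fun v => (x v, y v), finj, fun i j => Path.segment _ _, ?_, ?_, ?_⟩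
  · intro i j hij _
    exact Path.segment_injective_of_ne (fun h' => hij.ne (finj h'))
  · intro i j hij _ t ht v hv
    rw [seg, Prod.mk.injEq] at hv
    exact h.avoid i j hij t ht.1 ht.2 v hv.1 hv.2
  · intro i j k l hij hlt hkl hlt' hne s t hs ht hv
    rw [seg, seg, Prod.mk.injEq] at hv
    rcases h.cross i j k l hij hkl s t hs.1 hs.2 ht.1 ht.2 hv.1 hv.2 with ⟨rfl, rfl⟩ | ⟨rfl, rfl⟩
    · simp at hne
    · exact lt_asymm hlt hlt'

end Pool.Agent.Lib.MP_4bab84_co
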