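import Mathlib
import Pool.Agent.Lib.MP_4bab84_co.Good

set_option autoImplicit false

namespace Pool.Agent.Lib.MP_4bab84_co

/-- Vertices 0 and 1 are hubs, vertices 2, ..., n-1 form a path, and an inner path vertex v is
joined to the hub v mod 2. -/
def fan (n : ℕ) : SimpleGraph (Fin n) where
  Adj u v := (2 ≤ u.val ∧ v.val = u.val + 1) ∨ (2 ≤ v.val ∧ u.val = v.val + 1) ∨
    (3 ≤ v.val ∧ v.val + 2 ≤ n ∧ u.val = v.val % 2) ∨ (3 ≤ u.val ∧ u.val + 2 ≤ n ∧ v.val = u.val % 2)
  symm := ⟨fun u v h => by omega⟩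
  loopless := ⟨fun u h => by omega⟩

lemma fan_adj {n : ℕ} (u v : Fin n) : (fan n).Adj u v ↔
    (2 ≤ u.val ∧ v.val = u.val + 1) ∨ (2 ≤ v.val ∧ u.val = v.val + 1) ∨
    (3 ≤ v.val ∧ v.val + 2 ≤ n ∧ u.val = v.val % 2) ∨
    (3 ≤ u.val ∧ u.val + 2 ≤ n ∧ v.val = u.val % 2) := Iff.rfl

noncomputable def fx (n : ℕ) (v : Fin n) : ℝ := if v.val < 2 then 0 else v.val
noncomputable def fy (n : ℕ) (v : Fin n) : ℝ := if v.val = 0 then 1 else if v.val = 1 then -1 else 0

lemma fy_eq_zero {n : ℕ} (v : Fin n) : fy n v = 0 ↔ 2 ≤ v.val := by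
  unfold fy
  split_ifs with h1 h2
  · simp; omega
  · simp; omega
  · simp; omega

lemma fan_layout (n : ℕ) : Layout (fan n) (fx n) (fy n) := by
  refine ⟨?_, ?_, ?_⟩
  · intro v
    unfold fx fy
    by_cases h1 : v.val = 0
    · simp [h1]
    · by_cases h2 : v.val = 1
      · simp [h2]
      · have h3 : ¬ v.val < 2 := by omega
        have h4 : 0 < v.val := by omega
        left
        rw [if_neg h1, if_neg h2, if_neg h3]
        exact ⟨rfl, by exact_mod_cast h4⟩
  · intro u v h1 h2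
    apply Fin.ext
    by_cases a : 2 ≤ u.val
    · have b : 2 ≤ v.val := by rw [← fy_eq_zero, ← h2, fy_eq_zero]; exact a
      unfold fx at h1
      rw [if_neg (by omega), if_neg (by omega)] at h1
      exact_mod_cast h1
    · have b : ¬ 2 ≤ v.val := by rw [← fy_eq_zero, ← h2, fy_eq_zero]; exact a
      unfold fy at h2
      by_cases c : u.val = 0 <;> by_cases d : v.val = 0
      · omega
      · rw [if_pos c, if_neg d, if_pos (by omega)] at h2; norm_num at h2
      · rw [if_neg c, if_pos (by omega), if_pos d] at h2; norm_num at h2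
      · omega
  · intro u v w huv hu hv hw h1 h2
    rw [fy_eq_zero] at hu hv hw
    unfold fx at h1 h2
    rw [if_neg (by omega), if_neg (by omega)] at h1 h2
    have h3 : u.val < w.val := by exact_mod_cast h1
    have h4 : w.val < v.val := by exact_mod_cast h2
    rw [fan_adj] at huv
    omega

lemma fan_antichain (m n : ℕ) (hm : 15 ≤ m) (hmn : m < n) (B : Fin m → Set (Fin n))
    (hc : ∀ i, ((fan n).induce (B i)).Connected) (hd : ∀ i j, i ≠ j → Disjoint (B i) (B j))
    (ha : ∀ i j, i ≠ j → ((fan m).Adj i j ↔ ∃ u ∈ B i, ∃ v ∈ B j, (fan n).Adj u v)) : False := by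
  obtain ⟨r, hr, hL⟩ := (fan_layout n).minor (fan m) B hc hd ha
  have uniq : ∀ i j v, v ∈ B i → v ∈ B j → i = j := by
    intro i j v hi hj
    by_contra hne
    exact Set.disjoint_left.1 (hd i j hne) hi hj
  have hub : ∀ h : Fin m, h.val < 2 → (r h).val < 2 := by
    intro h hh
    by_contra hcon
    have h0 : (fy n ∘ r) h = 0 := (fy_eq_zero _).2 (by omega)
    refine hL.deg h h0 (fun i => ⟨4 + h.val + 2 * i.val, by omega⟩) ?_ ?_
    · intro i j hij
      simp only [Fin.mk.injEq] at hij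
      apply Fin.ext
      omega
    · intro i
      rw [fan_adj]
      simp only
      omega
  let a : Fin m := ⟨0, by omega⟩
  let b : Fin m := ⟨1, by omega⟩
  have hab : a ≠ b := by simp [a, b]
  have ra := hub a (by simp [a])
  have rb := hub b (by simp [b])
  have rab : (r a).val ≠ (r b).val := by
    intro h
    exact hab (uniq a b (r a) (hr a) (by rw [Fin.ext h]; exact hr b))
  have own : ∀ v : Fin n, v.val < 2 → v = r a ∨ v = r b := by
    intro v hv
    by_cases h : v.val = (r a).val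
    · exact Or.inl (Fin.ext h)
    · exact Or.inr (Fin.ext (by omega))
  have nohub : ∀ i : Fin m, 2 ≤ i.val → ∀ v ∈ B i, 2 ≤ v.val := by
    intro i hi v hv
    by_contra hcon
    rcases own v (by omega) with h | h
    · have := uniq i a v hv (h ▸ hr a)
      rw [this] at hi
      simp [a] at hi
    · have := uniq i b v hv (h ▸ hr b)
      rw [this] at hi
      simp [b] at hi
  have adjhub : ∀ i : Fin m, 2 ≤ i.val → ∀ v ∈ B i, 3 ≤ v.val → v.val + 2 ≤ n →
      ∀ h : Fin m, h.val < 2 → (r h).val = v.val % 2 →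
        3 ≤ i.val ∧ i.val + 2 ≤ m ∧ h.val = i.val % 2 := by
    intro i hi v hv h3 h4 h hh hrh
    have hne : i ≠ h := by rintro rfl; omega
    have := (ha i h hne).2 ⟨v, hv, r h, hr h, by rw [fan_adj]; omega⟩
    rw [fan_adj] at this
    omega
  have adjhub' : ∀ i : Fin m, 2 ≤ i.val → ∀ v ∈ B i, 3 ≤ v.val → v.val + 2 ≤ n →
      3 ≤ i.val ∧ i.val + 2 ≤ m ∧ ((r a).val = v.val % 2 ↔ i.val % 2 = 0) := by
    intro i hi v hv h3 h4
    by_cases h : (r a).val = v.val % 2
    · have := adjhub i hi v hv h3 h4 a (by simp [a]) h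
      simp only [a] at this
      omega
    · have := adjhub i hi v hv h3 h4 b (by simp [b]) (by omega)
      simp only [b] at this
      omega
  let p : Fin m := ⟨2, by omega⟩
  let q : Fin m := ⟨m - 1, by omega⟩
  have hpq : p ≠ q := by simp only [p, q, ne_eq, Fin.mk.injEq]; omega
  have ends : ∀ i : Fin m, (i = p ∨ i = q) → ∀ v ∈ B i, v.val = 2 ∨ v.val = n - 1 := by
    intro i hi v hv
    have i2 : i.val = 2 ∨ i.val = m - 1 := by rcases hi with rfl | rfl <;> simp [p, q]
    have := nohub i (by omega) v hv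
    by_contra hcon
    have h5 := v.2
    have := adjhub' i (by omega) v hv (by omega) (by omega)
    omega
  have ep := ends p (Or.inl rfl) _ (hr p)
  have eq := ends q (Or.inr rfl) _ (hr q)
  have rpq : (r p).val ≠ (r q).val := by
    intro h
    exact hpq (uniq p q (r p) (hr p) (by rw [Fin.ext h]; exact hr q))
  have inner : ∀ i : Fin m, ∀ v ∈ B i, (v.val = 2 ∨ v.val = n - 1) → i = p ∨ i = q := by
    intro i v hv h
    by_cases h' : v.val = (r p).val
    · exact Or.inl (uniq i p v hv (by rw [Fin.ext h']; exact hr p))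
    · exact Or.inr (uniq i q v hv (by rw [Fin.ext (show v.val = (r q).val by omega)]; exact hr q))
  have single : ∀ i : Fin m, 2 ≤ i.val → ∀ v ∈ B i, v = r i := by
    intro i hi v hv
    by_contra hne
    obtain ⟨w⟩ := (hc i).preconnected ⟨v, hv⟩ ⟨r i, hr i⟩
    cases w with
    | nil => exact hne rfl
    | @cons _ u _ h w' =>
      have hadj : (fan n).Adj v u.1 := by simpa using h
      have hu := u.2
      have n1 := nohub i hi v hv
      have n2 := nohub i hi u.1 hu
      rw [fan_adj] at hadj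
      have v2 := v.2
      have u2 := u.1.2
      by_cases e : i = p ∨ i = q
      · have := ends i e v hv
        have := ends i e u.1 hu
        omega
      · have f1 : ¬ (v.val = 2 ∨ v.val = n - 1) := fun h' => e (inner i v hv h')
        have f2 : ¬ (u.1.val = 2 ∨ u.1.val = n - 1) := fun h' => e (inner i u.1 hu h')
        have := adjhub' i hi v hv (by omega) (by omega)
        have := adjhub' i hi u.1 hu (by omega) (by omega)
        omega
  have step : ∀ k : ℕ, ∀ hk : k + 2 < m,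
      (r ⟨k + 2, hk⟩).val ≤ (r p).val + k ∧ (r p).val ≤ (r ⟨k + 2, hk⟩).val + k := by
    intro k
    induction k with
    | zero => intro hk; exact ⟨le_refl _, le_refl _⟩
    | succ k ih =>
      intro hk
      have h1 := ih (by omega)
      have hne : (⟨k + 2, by omega⟩ : Fin m) ≠ ⟨k + 1 + 2, hk⟩ := by simp
      obtain ⟨u, hu, v, hv, huv⟩ := (ha _ _ hne).1 (Or.inl ⟨by simp, rfl⟩)
      have n1 := nohub _ (by simp) u hu
      have n2 := nohub _ (by simp) v hv
      rw [single _ (by simp) u hu] at huv n1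
      rw [single _ (by simp) v hv] at huv n2
      rw [fan_adj] at huv
      omega
  have fin := step (m - 3) (by omega)
  have e : (⟨m - 3 + 2, by omega⟩ : Fin m) = q := by simp only [q, Fin.mk.injEq]; omega
  rw [e] at fin
  omega

lemma wheel_bound (k : ℕ) (hk : 5 ≤ k) (x y : Fin (2 * k + 2) → ℝ)
    (h : Layout (SimpleGraph.fromRel (fun a b : Fin (2 * k + 2) =>
          (a.val < 2 * k ∧ b.val < 2 * k ∧ b.val = (a.val + 1) % (2 * k)) ∨
          (a.val = 2 * k ∧ b.val < 2 * k ∧ b.val % 2 = 0) ∨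
          (a.val = 2 * k + 1 ∧ b.val < 2 * k ∧ b.val % 2 = 1))) x y) : False := by
  have hub : ∀ v : Fin (2 * k + 2), 2 * k ≤ v.val → y v ≠ 0 := by
    intro v hv h0
    have v2 := v.2
    refine h.deg v h0 (fun i => ⟨v.val - 2 * k + 2 * i.val, by omega⟩) ?_ ?_
    · intro i j hij
      simp only [Fin.mk.injEq] at hij
      apply Fin.ext
      omega
    · intro i
      rw [SimpleGraph.fromRel_adj]
      have i2 := i.2
      refine ⟨fun h' => ?_, Or.inl ?_⟩
      · have := congrArg Fin.val h'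
        simp only at this
        omega
      · simp only
        omega
  let a : Fin (2 * k + 2) := ⟨2 * k, by omega⟩
  let b : Fin (2 * k + 2) := ⟨2 * k + 1, by omega⟩
  have ya := hub a (by simp [a])
  have yb := hub b (by simp [b])
  have hab : a ≠ b := by simp [a, b]
  have rim : ∀ v : Fin (2 * k + 2), v.val < 2 * k → y v = 0 := by
    intro v hv
    have hva : v ≠ a := by rintro rfl; simp [a] at hv
    have hvb : v ≠ b := by rintro rfl; simp [b] at hv
    have i1 := h.inj v a
    have i2 := h.inj v b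
    have i3 := h.inj a b
    rcases h.pos v with ⟨c1, c2⟩ | ⟨c1, c2⟩ | ⟨c1, c2⟩ <;>
    rcases h.pos a with ⟨a1, a2⟩ | ⟨a1, a2⟩ | ⟨a1, a2⟩ <;>
    rcases h.pos b with ⟨b1, b2⟩ | ⟨b1, b2⟩ | ⟨b1, b2⟩ <;>
    first
      | exact c1
      | exact (ya a1).elim
      | exact (yb b1).elim
      | exact (hva (i1 (c2.trans a2.symm) (c1.trans a1.symm))).elim
      | exact (hvb (i2 (c2.trans b2.symm) (c1.trans b1.symm))).elim
      | exact (hab (i3 (a2.trans b2.symm) (a1.trans b1.symm))).elim
  obtain ⟨v, hv, hmax⟩ := Finset.exists_max_image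
    (Finset.univ.filter (fun v : Fin (2 * k + 2) => v.val < 2 * k)) x
    ⟨⟨0, by omega⟩, by simp; omega⟩
  simp only [Finset.mem_filter, Finset.mem_univ, true_and] at hv hmax
  obtain ⟨s, hs, hs1⟩ : ∃ s : Fin (2 * k + 2), s.val < 2 * k ∧
      ((v.val + 1 < 2 * k ∧ s.val = v.val + 1) ∨ (v.val + 1 = 2 * k ∧ s.val = 0)) := by
    by_cases c : v.val + 1 < 2 * k
    · exact ⟨⟨v.val + 1, by omega⟩, c, Or.inl ⟨c, rfl⟩⟩
    · exact ⟨⟨0, by omega⟩, by simp; omega, Or.inr ⟨by omega, rfl⟩⟩
  obtain ⟨t, ht, ht1⟩ : ∃ t : Fin (2 * k + 2), t.val < 2 * k ∧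
      ((t.val + 1 < 2 * k ∧ v.val = t.val + 1) ∨ (t.val + 1 = 2 * k ∧ v.val = 0)) := by
    by_cases c : v.val = 0
    · exact ⟨⟨2 * k - 1, by omega⟩, by simp; omega, Or.inr ⟨by simp; omega, c⟩⟩
    · exact ⟨⟨v.val - 1, by omega⟩, by simp; omega, Or.inl ⟨by simp; omega, by simp; omega⟩⟩
  have md : ∀ u w : ℕ, ((u + 1 < 2 * k ∧ w = u + 1) ∨ (u + 1 = 2 * k ∧ w = 0)) →
      w = (u + 1) % (2 * k) := by
    intro u w huw
    rcases huw with ⟨h1, h2⟩ | ⟨h1, h2⟩
    · rw [Nat.mod_eq_of_lt h1, h2]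
    · rw [h1, Nat.mod_self, h2]
  have nsv : s ≠ v := fun e => by have := congrArg Fin.val e; omega
  have ntv : t ≠ v := fun e => by have := congrArg Fin.val e; omega
  have nst : s ≠ t := fun e => by have := congrArg Fin.val e; omega
  have xs : x s < x v := lt_of_le_of_ne (hmax s hs)
    (fun e => nsv (h.inj _ _ e (by rw [rim s hs, rim v hv])))
  have xt : x t < x v := lt_of_le_of_ne (hmax t ht)
    (fun e => ntv (h.inj _ _ e (by rw [rim t ht, rim v hv])))
  have xst : x s ≠ x t := fun e => nst (h.inj _ _ e (by rw [rim s hs, rim t ht]))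
  rcases lt_or_gt_of_ne xst with r | r
  · refine h.lin s v t ?_ (rim s hs) (rim v hv) (rim t ht) r xt
    rw [SimpleGraph.fromRel_adj]
    exact ⟨nsv, Or.inr (Or.inl ⟨hv, hs, md _ _ hs1⟩)⟩
  · refine h.lin t v s ?_ (rim t ht) (rim v hv) (rim s hs) r xs
    rw [SimpleGraph.fromRel_adj]
    exact ⟨ntv, Or.inl (Or.inl ⟨ht, hv, md _ _ ht1⟩)⟩

end Pool.Agent.Lib.MP_4bab84_co
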