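import Mathlib
import Pool.Agent.Lib.MP_4bab84_co.Anti

set_option autoImplicit false

namespace Pool.Agent.Lib.MP_4bab84_co

/-- Finite graphs. -/
abbrev FinGraph : Type := Σ n : ℕ, SimpleGraph (Fin n)

/-- `H` is isomorphic to `G` with the vertex `v` deleted. -/
def IsDeletion (H G : FinGraph) : Prop :=
  ∃ v : Fin G.1, Nonempty (H.2 ≃g G.2.induce {x | x ≠ v})

/-- `H` is isomorphic to `G` with an edge `uv` contracted. -/
def IsContraction (H G : FinGraph) : Prop :=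
  ∃ u v : Fin G.1, G.2.Adj u v ∧ ∃ φ : Fin G.1 → Fin H.1, Function.Surjective φ ∧
    (∀ x y, φ x = φ y ↔ x = y ∨ (x = u ∧ y = v) ∨ (x = v ∧ y = u)) ∧
    ∀ a b, H.2.Adj a b ↔ a ≠ b ∧ ∃ x y, φ x = a ∧ φ y = b ∧ G.2.Adj x y

/-- `H` is an induced minor of `G`. -/
def InducedMinor : FinGraph → FinGraph → Prop :=
  Relation.ReflTransGen fun H G => Nonempty (H.2 ≃g G.2) ∨ IsDeletion H G ∨ IsContraction H G

/-- Drawing in the plane: vertices are distinct points, edges are simple arcs whose interiors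
avoid the vertices and each other. -/
def Planar (G : FinGraph) : Prop :=
  ∃ f : Fin G.1 → ℝ × ℝ, Function.Injective f ∧ ∃ γ : (i j : Fin G.1) → Path (f i) (f j),
    (∀ i j, G.2.Adj i j → i < j → Function.Injective (γ i j)) ∧
    (∀ i j, G.2.Adj i j → i < j → ∀ t : unitInterval, (t : ℝ) ∈ Set.Ioo (0 : ℝ) 1 →
      ∀ v, γ i j t ≠ f v) ∧
    ∀ i j k l, G.2.Adj i j → i < j → G.2.Adj k l → k < l → (i ≠ k ∨ j ≠ l) →
      ∀ s t : unitInterval, (s : ℝ) ∈ Set.Ioo (0 : ℝ) 1 → (t : ℝ) ∈ Set.Ioo (0 : ℝ) 1 →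
        γ i j s ≠ γ k l t

/-- The alternating double wheel on the cycle `0, 1, ..., 2k-1` with hubs `2k` and `2k+1`. -/
def wheel (k : ℕ) : SimpleGraph (Fin (2 * k + 2)) :=
  SimpleGraph.fromRel fun a b =>
    (a.val < 2 * k ∧ b.val < 2 * k ∧ b.val = (a.val + 1) % (2 * k)) ∨
    (a.val = 2 * k ∧ b.val < 2 * k ∧ b.val % 2 = 0) ∨
    (a.val = 2 * k + 1 ∧ b.val < 2 * k ∧ b.val % 2 = 1)

/-- Branch-set model. -/
def Model (H G : FinGraph) : Prop :=
  ∃ B : Fin H.1 → Set (Fin G.1), (∀ i, (G.2.induce (B i)).Connected) ∧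
    (∀ i j, i ≠ j → Disjoint (B i) (B j)) ∧
    ∀ i j, i ≠ j → (H.2.Adj i j ↔ ∃ u ∈ B i, ∃ v ∈ B j, G.2.Adj u v)

lemma conn_single {V : Type} (G : SimpleGraph V) (v : V) : (G.induce {v}).Connected := by
  haveI : Nonempty ({v} : Set V) := ⟨⟨v, rfl⟩⟩
  refine ⟨fun a b => ?_⟩
  have : a = b := Subtype.ext (a.2.trans b.2.symm)
  rw [this]

lemma model_of_inj {H G : FinGraph} (e : Fin H.1 → Fin G.1) (he : Function.Injective e)
    (h : ∀ a b, H.2.Adj a b ↔ G.2.Adj (e a) (e b)) : Model H G := by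
  refine ⟨fun i => {e i}, fun i => conn_single _ _, fun i j hij => ?_, fun i j _ => ?_⟩
  · exact Set.disjoint_singleton.2 fun h' => hij (he h')
  · simp [h]

lemma model_of_step {H G : FinGraph}
    (h : Nonempty (H.2 ≃g G.2) ∨ IsDeletion H G ∨ IsContraction H G) : Model H G := by
  rcases h with ⟨⟨e⟩⟩ | ⟨v, ⟨e⟩⟩ | ⟨u, v, huv, φ, hs, hφ, ha⟩
  · exact model_of_inj e e.injective fun a b => e.map_rel_iff.symm
  · refine model_of_inj (fun a => (e a).1) (fun a b hab => e.injective (Subtype.ext hab)) ?_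
    intro a b
    rw [← e.map_rel_iff]
    simp
  · refine ⟨fun i => {x | φ x = i}, fun i => ?_, fun i j hij => ?_, fun i j hij => ?_⟩
    · obtain ⟨x, hx⟩ := hs i
      haveI : Nonempty {x | φ x = i} := ⟨⟨x, hx⟩⟩
      refine ⟨fun a b => ?_⟩
      have hab : φ a.1 = φ b.1 := a.2.trans b.2.symm
      rcases (hφ _ _).1 hab with h | ⟨h1, h2⟩ | ⟨h1, h2⟩
      · rw [Subtype.ext h]
      · refine SimpleGraph.Adj.reachable ?_
        simp only [SimpleGraph.comap_adj, Function.Embedding.subtype_apply, h1, h2]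
        exact huv
      · refine SimpleGraph.Adj.reachable ?_
        simp only [SimpleGraph.comap_adj, Function.Embedding.subtype_apply, h1, h2]
        exact huv.symm
    · exact Set.disjoint_left.2 fun x h1 h2 => hij (h1.symm.trans h2)
    · rw [ha]
      constructor
      · rintro ⟨-, x, y, h1, h2, h3⟩
        exact ⟨x, h1, y, h2, h3⟩
      · rintro ⟨x, h1, y, h2, h3⟩
        exact ⟨hij, x, y, h1, h2, h3⟩

lemma reach_mono {V : Type} (G : SimpleGraph V) {S T : Set V} (h : S ⊆ T) (a b : S)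
    (hr : (G.induce S).Reachable a b) : (G.induce T).Reachable ⟨a.1, h a.2⟩ ⟨b.1, h b.2⟩ :=
  hr.map (G.induceHomOfLE h).toHom

lemma Model.trans {K H G : FinGraph} (h1 : Model K H) (h2 : Model H G) : Model K G := by
  obtain ⟨B, hc, hd, ha⟩ := h1
  obtain ⟨C, kc, kd, ka⟩ := h2
  refine ⟨fun i => ⋃ a ∈ B i, C a, fun i => ?_, fun i j hij => ?_, fun i j hij => ?_⟩
  · have sub : ∀ a : B i, C a.1 ⊆ ⋃ a ∈ B i, C a := fun a =>
      Set.subset_biUnion_of_mem (u := C) a.2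
    have key : ∀ a b : B i, Relation.ReflTransGen (H.2.induce (B i)).Adj a b →
        ∀ (x : C a.1) (y : C b.1), (G.2.induce (⋃ a ∈ B i, C a)).Reachable
          ⟨x.1, sub a x.2⟩ ⟨y.1, sub b y.2⟩ := by
      intro a b hab
      induction hab with
      | refl => exact fun x y => reach_mono _ (sub a) x y ((kc a.1).preconnected x y)
      | @tail c d _ hcd ih =>
        intro x y
        have hadj : H.2.Adj c.1 d.1 := by simpa using hcd
        obtain ⟨u, hu, v, hv, huv⟩ := (ka _ _ hadj.ne).1 hadj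
        refine (ih x ⟨u, hu⟩).trans (SimpleGraph.Reachable.trans ?_
          (reach_mono _ (sub d) ⟨v, hv⟩ y ((kc d.1).preconnected _ _)))
        exact SimpleGraph.Adj.reachable (by simpa using huv)
    obtain ⟨a⟩ := (hc i).nonempty
    obtain ⟨x⟩ := (kc a.1).nonempty
    haveI : Nonempty (⋃ a ∈ B i, C a : Set _) := ⟨⟨x.1, sub a x.2⟩⟩
    refine ⟨fun p q => ?_⟩
    obtain ⟨a, ha', hp⟩ := Set.mem_iUnion₂.1 p.2
    obtain ⟨b, hb', hq⟩ := Set.mem_iUnion₂.1 q.2
    exact key ⟨a, ha'⟩ ⟨b, hb'⟩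
      ((SimpleGraph.reachable_iff_reflTransGen _ _).1 ((hc i).preconnected _ _)) ⟨p.1, hp⟩ ⟨q.1, hq⟩
  · refine Set.disjoint_left.2 fun x h1 h2 => ?_
    obtain ⟨a, ha', hp⟩ := Set.mem_iUnion₂.1 h1
    obtain ⟨b, hb', hq⟩ := Set.mem_iUnion₂.1 h2
    have hab : a ≠ b := fun h => Set.disjoint_left.1 (hd i j hij) ha' (h ▸ hb')
    exact Set.disjoint_left.1 (kd a b hab) hp hq
  · rw [ha i j hij]
    constructor
    · rintro ⟨a, ha', b, hb', hab⟩
      obtain ⟨u, hu, v, hv, huv⟩ := (ka _ _ hab.ne).1 hab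
      exact ⟨u, Set.mem_iUnion₂.2 ⟨a, ha', hu⟩, v, Set.mem_iUnion₂.2 ⟨b, hb', hv⟩, huv⟩
    · rintro ⟨u, hu, v, hv, huv⟩
      obtain ⟨a, ha', hp⟩ := Set.mem_iUnion₂.1 hu
      obtain ⟨b, hb', hq⟩ := Set.mem_iUnion₂.1 hv
      have hab : a ≠ b := fun h => Set.disjoint_left.1 (hd i j hij) ha' (h ▸ hb')
      exact ⟨a, ha', b, hb', (ka a b hab).2 ⟨u, hp, v, hq, huv⟩⟩

lemma InducedMinor.model {H G : FinGraph} (h : InducedMinor H G) : Model H G := by
  induction h with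
  | refl => exact model_of_inj id Function.injective_id fun _ _ => Iff.rfl
  | tail _ h ih => exact ih.trans (model_of_step h)

lemma Model.card_le {H G : FinGraph} (h : Model H G) : H.1 ≤ G.1 := by
  obtain ⟨B, hc, hd, -⟩ := h
  have : ∀ i, ∃ v, v ∈ B i := fun i => by
    obtain ⟨v⟩ := (hc i).nonempty
    exact ⟨v.1, v.2⟩
  choose r hr using this
  have hinj : Function.Injective r := fun i j hij => by
    by_contra hne
    exact Set.disjoint_left.1 (hd i j hne) (hr i) (hij ▸ hr j)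
  simpa using Fintype.card_le_of_injective r hinj

lemma Model.layout {H G : FinGraph} (h : Model H G) (hG : ∃ x y, Layout G.2 x y) :
    ∃ x y, Layout H.2 x y := by
  obtain ⟨x, y, hG⟩ := hG
  obtain ⟨B, hc, hd, ha⟩ := h
  obtain ⟨r, -, hr⟩ := hG.minor H.2 B hc hd ha
  exact ⟨_, _, hr⟩

end Pool.Agent.Lib.MP_4bab84_co
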